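import Pool.Agent.helper51.RMX.Spec

/-!
# Row rmx:PEX (MP_24e2e7_nt): exact formula for the product of the values at 0 over the odd characters
(adapted from the row PR2 of the project rb by helper83, helper68)
-/

set_option autoImplicit false

namespace Pool.Agent.RMX

open Pool.Agent.RB NumberField IsDedekindDomain Module
open scoped nonZeroDivisors Real Classical IsMulCommutative

theorem PEX : PEX_stmt := by
  intro F k K _ _ _ _ _ _ _ _ _ _ _ _ _ _ _ c hc hck Lf hLf T Tk hTk hTy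
  -- the value at `0`
  have hdiff : DifferentiableOn ℂ (fun s => ∏ χ ∈ odd c, Lf χ s) {1}ᶜ :=
    DifferentiableOn.fun_finsetProd fun χ _ => (hLf χ).1
  have hV := fin_val k K (fun s => ∏ χ ∈ odd c, Lf χ s) hdiff (by
    intro s hs
    rw [fin_zrt F k K c hc hck s hs]
    congr 1
    exact Finset.prod_congr rfl fun χ _ => ((hLf χ).2 s hs).symm)
  -- the local factors
  have hT := fun p => fin_tow F k K c hc hck p
  choose f g hf hg hn hnm τ hτ hty hprod using hT
  have hT1 : ∏ p ∈ T, ∏ χ ∈ odd c, (1 - chv χ p * (nm p : ℂ)) =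
      ∏ q ∈ Tk, (1 - (ty K q : ℂ) * (nm q : ℂ)) := by
    rw [← Finset.prod_fiberwise_of_maps_to (s := Tk) (t := T) (g := fun q => q.under (𝓞 F))
      (fun q hq => (hTk q).1 hq)]
    refine Finset.prod_congr rfl fun p hp => ?_
    have h1 : ∀ q ∈ Tk.filter (fun q => q.under (𝓞 F) = p),
        (1 - (ty K q : ℂ) * (nm q : ℂ)) = 1 - (τ p : ℂ) * (nm p : ℂ) ^ f p := by
      intro q hq
      have h2 := (Finset.mem_filter.1 hq).2
      rw [hty p q h2, hnm p q h2]
      push_cast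
      ring
    rw [Finset.prod_congr rfl h1, Finset.prod_const, hprod p]
    congr 1
    rw [← hn p, ← Set.ncard_coe_finset]
    congr 1
    ext q
    simp only [Set.mem_ofPred_eq, Finset.coe_filter]
    exact ⟨fun h => ⟨(hTk q).2 (by rw [h]; exact hp), h⟩, fun h => h.2⟩
  have hty1 : ∀ q ∈ Tk, ty K q = 1 ∨ ty K q = -1 := by
    intro q hq
    have h2 := hty (q.under (𝓞 F)) q rfl
    rcases hτ (q.under (𝓞 F)) with h3 | h3 | h3
    · exact Or.inl (h2.trans h3)
    · exact Or.inr (h2.trans h3)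
    · exact absurd (h2.trans h3) (hTy q hq)
  have hT2 : ∏ q ∈ Tk, (1 - (ty K q : ℂ) * (nm q : ℂ)) =
      ((∏ q ∈ Tk, (-ty K q) : ℤ) : ℂ) * ∏ q ∈ Tk, ((nm q : ℂ) - (ty K q : ℂ)) := by
    push_cast
    rw [← Finset.prod_mul_distrib]
    refine Finset.prod_congr rfl fun q hq => ?_
    rcases hty1 q hq with h1 | h1 <;> rw [h1] <;> push_cast <;> ring
  have hε : ∀ s : Finset (HOS k), s ⊆ Tk → (∏ q ∈ s, (-ty K q)) = 1 ∨ (∏ q ∈ s, (-ty K q)) = -1 := by
    intro s
    induction s using Finset.induction_on with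
    | empty => intro _; exact Or.inl (by simp)
    | insert a s ha ih =>
      intro hs
      rw [Finset.prod_insert ha]
      rcases ih (fun x hx => hs (Finset.mem_insert_of_mem hx)) with h1 | h1 <;>
        rcases hty1 a (hs (Finset.mem_insert_self a s)) with h2 | h2 <;> rw [h1, h2] <;> norm_num
  refine ⟨∏ q ∈ Tk, (-ty K q), hε Tk (Finset.Subset.refl _), ?_⟩
  have hL : ∏ χ ∈ odd c, LST Lf ∅ T χ = (∏ χ ∈ odd c, Lf χ 0) *
      (((∏ q ∈ Tk, (-ty K q) : ℤ) : ℂ) * ∏ q ∈ Tk, ((nm q : ℂ) - (ty K q : ℂ))) := by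
    unfold LST
    rw [Finset.prod_mul_distrib, Finset.prod_mul_distrib,
      Finset.prod_comm (s := odd c) (t := T), hT1, hT2]
    simp
  rw [hL]
  linear_combination (((∏ q ∈ Tk, (-ty K q) : ℤ) : ℂ) * ∏ q ∈ Tk, ((nm q : ℂ) - (ty K q : ℂ))) * hV

end Pool.Agent.RMX
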